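import Pool.Agent.H.MP_7009f9.B

set_option autoImplicit false
open Complex Set Filter MeasureTheory

namespace Pool.Agent.Results.MP_7009f9_gt.Main

noncomputable def Lap (f : ℂ → ℝ) (z : ℂ) : ℝ :=
  deriv (deriv fun t : ℝ => f (z + t)) 0 + deriv (deriv fun t : ℝ => f (z + t * I)) 0

def Q (p : Fin 4 → ℝ) : ℝ := -p 0 ^ 2 + p 1 ^ 2 + p 2 ^ 2 + p 3 ^ 2

noncomputable def K (ρ : ℂ → ℝ) (z : ℂ) : ℝ := -Lap (fun w => Real.log (ρ w)) z / (2 * ρ z)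

open Pool.Agent.H.MP_7009f9 in
theorem result : ∃ (x : ℂ → Fin 4 → ℝ) (ρ : ℂ → ℝ), ContDiffOn ℝ (⊤ : ℕ∞) x {0}ᶜ ∧
    (∀ z ≠ 0, 0 < ρ z ∧ ∀ v, Q (fderiv ℝ x z v) = ρ z * ‖v‖ ^ 2) ∧
    (∀ z ≠ 0, ∀ i, Lap (fun w => x w i) z = 0) ∧
    InjOn x {0}ᶜ ∧ (∀ C, IsCompact C → IsCompact ({0}ᶜ ∩ x ⁻¹' C)) ∧
    (∀ γ γ' : ℝ → ℂ, (∀ t ≥ 0, γ t ≠ 0 ∧ HasDerivAt γ (γ' t) t) → ContinuousOn γ' (Ici 0) →
      (∀ C ⊆ {0}ᶜ, IsCompact C → ∀ᶠ t in atTop, γ t ∉ C) →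
      ∫⁻ t in Ici 0, ENNReal.ofReal √(ρ (γ t) * ‖γ' t‖ ^ 2) = ⊤) ∧
    ∫⁻ z in {0}ᶜ, ENNReal.ofReal (|K ρ z| * ρ z) = ⊤ := by
  refine ⟨x, ρ, sm, fun z hz => ⟨r0 z, fun v => ?_⟩, fun z hz i => ?_, inj, fun C hC => ?_,
    fun γ γ' => cpl, tot fun z h1 h2 h3 h4 => ENNReal.ofReal_le_ofReal (cur h1 h2 h3 h4)⟩
  · simp only [Q, fd hz, met hz]
  · have h := har hz 1 i
    simp only [mul_one] at h
    rw [Lap, h, har hz, mul_assoc, I_mul_I]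
    simp
  · obtain ⟨M, hM⟩ := hC.isBounded.exists_norm_le
    obtain ⟨S, s1, s2, s3⟩ := ann M
    rw [show {0}ᶜ ∩ x ⁻¹' C = S ∩ x ⁻¹' C from Subset.antisymm (fun z h => ⟨s3 z h.1
      ((norm_le_pi_norm _ 1).trans (hM _ h.2)) ((norm_le_pi_norm _ 2).trans (hM _ h.2)), h.2⟩)
      (inter_subset_inter_left _ s1)]
    exact s2.of_isClosed_subset ((sm.continuousOn.mono s1).preimage_isClosed_of_isClosed
      s2.isClosed hC.isClosed) inter_subset_left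

end Pool.Agent.Results.MP_7009f9_gt.Main
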